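import Mathlib
import Pool.Agent.Y167.FS.C0

set_option autoImplicit false

/-!
# Bounded linear operators into Lipschitz free `p`-spaces

The question Q1 asks for an infinite-dimensional Banach space that linearly embeds into the
Lipschitz free `p`-space `F_p(c_0)`, `0 < p < 1`. The earlier result `NoBanachSubspace` shows that
there is none, for any metric space `M` in place of `c_0`. Here it is shown that much more is
excluded: every bounded linear operator from a Banach space to `F_p(M)`, injective or not, is
compact, and the same holds for all `r`-normed spaces with `r > p`. For `r = p` the compact operators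
and the operators which fix a copy of `ℓ_p` are the only ones, and the threshold `r > p` is exact for
`M = c_0`.

The definitions `IsPBanach`, `IsFreePSpace`, `EquivLp` are those of the starting file
`Pool.Agent.H262.FreeP`; `IsRNormed` and `IsCompactOp` are in `Pool.Agent.Y167.FS.Comp`.

Proof. A bounded sequence in `F_p(M)` without a convergent subsequence has a uniformly separated
subsequence, hence, by the Schur `p`-property of `F_p(M)` (`Pool.Agent.H262.FP.transferK`), one which is
equivalent to the `ℓ_p` basis. If it is the image of a bounded sequence in an `r`-normed space, then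
the sums of `k` of its members are bounded by `C k ^ (1 / r)` and not less than `c k ^ (1 / p)`.
-/

namespace Pool.Agent.Results.MP_4dc88f_an.CompactOperators

open Pool.Agent.H262.FreeP Pool.Agent.Y167.FS

/-- Let `0 < p < 1`.

(1) Let `F = F_p(M)` be the Lipschitz free `p`-space over any metric space `M`, with real or complex
scalars. Every bounded linear operator from an `r`-normed space, `r > p`, to `F` is compact. In
particular every bounded linear operator `T` from a normed space `X` to `F` is compact, and if `T` is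
an embedding then `X` is finite-dimensional. Every bounded linear operator `T` from a `p`-normed space
to `F` is compact, or fixes a copy of `ℓ_p`: there is a sequence `x n` which is equivalent to the
canonical basis of `ℓ_p`, as is the sequence `T (x n)`.

(2) Let `M = c_0`. For `0 < r ≤ 1` the following are equivalent: every bounded linear operator from an
`r`-normed space to `F_p(c_0)` is compact; `r > p`. -/
theorem result (p : ℝ) (hp : 0 < p) (hp1 : p < 1) :
    (∀ (𝕜 : Type) [RCLike 𝕜] (M : Type) [MetricSpace M] (o : M) (F : Type) [AddCommGroup F]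
      [Module 𝕜 F] (N : F → ℝ) (δ : M → F), IsFreePSpace 𝕜 p M o F N δ →
      (∀ r : ℝ, p < r → ∀ (X : Type) [AddCommGroup X] [Module 𝕜 X] (NX : X → ℝ),
        IsRNormed 𝕜 r X NX → ∀ (T : X →ₗ[𝕜] F) (C : ℝ), (∀ x, N (T x) ≤ C * NX x) →
          IsCompactOp NX N T) ∧
      (∀ (X : Type) [NormedAddCommGroup X] [NormedSpace 𝕜 X] (T : X →ₗ[𝕜] F) (C : ℝ),
        (∀ x, N (T x) ≤ C * ‖x‖) → IsCompactOp (fun x : X => ‖x‖) N T ∧
          ∀ c : ℝ, 0 < c → (∀ x, c * ‖x‖ ≤ N (T x)) → FiniteDimensional 𝕜 X) ∧
      (∀ (X : Type) [AddCommGroup X] [Module 𝕜 X] (NX : X → ℝ), IsRNormed 𝕜 p X NX →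
        ∀ (T : X →ₗ[𝕜] F) (C : ℝ), (∀ x, N (T x) ≤ C * NX x) →
          IsCompactOp NX N T ∨
            ∃ x : ℕ → X, EquivLp 𝕜 p NX x ∧ EquivLp 𝕜 p N (fun n => T (x n)))) ∧
    (∀ (F : Type) [AddCommGroup F] [Module ℝ F] (N : F → ℝ)
      (δ : ZeroAtInftyContinuousMap ℕ ℝ → F),
      IsFreePSpace ℝ p (ZeroAtInftyContinuousMap ℕ ℝ) 0 F N δ → ∀ r : ℝ, 0 < r → r ≤ 1 →
        ((∀ (X : Type) [AddCommGroup X] [Module ℝ X] (NX : X → ℝ), IsRNormed ℝ r X NX →
          ∀ (T : X →ₗ[ℝ] F) (C : ℝ), (∀ x, N (T x) ≤ C * NX x) → IsCompactOp NX N T) ↔ p < r)) := by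
  refine ⟨fun 𝕜 _ M _ o F _ _ N δ hF => ⟨fun r hr X _ _ NX hX T C hT =>
    compact_of_gt hp hp1 hF hr hX T hT, fun X _ _ T C hT => ?_, fun X _ _ NX hX T C hT =>
    compact_or_fix hp hp1 hF hX T hT⟩, fun F _ _ N δ hF r hr hr1 => ⟨fun h => ?_, fun h X _ _ NX hX T C hT =>
    compact_of_gt hp hp1 hF h hX T hT⟩⟩
  · have hX : IsRNormed 𝕜 1 X (fun x : X => ‖x‖) :=
      ⟨fun x => norm_nonneg x, fun x => norm_eq_zero, fun c x => norm_smul c x, fun x y => by
        rw [Real.rpow_one, Real.rpow_one, Real.rpow_one]; exact norm_add_le x y⟩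
    have hc := compact_of_gt hp hp1 hF hp1 hX T hT
    exact ⟨hc, fun c hc0 hc1 => finite_of_compact hp hF.pbanach X T hc0 hc1 hc⟩
  · by_contra hle
    rw [not_lt] at hle
    exact id_not_compact hp hF (h F N (rnormed_of_le hp hr hle hF.pbanach) LinearMap.id 1
      fun x => by simp)

end Pool.Agent.Results.MP_4dc88f_an.CompactOperators
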